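import Pool.Agent.Q299.Marg.Defs

namespace Q299.Marg

/-- state of a triangle: (base edge, left edge, right edge) -/
abbrev St := Bool × Bool × Bool

/-- number of edges -/
def ec (s : St) : ℕ := s.1.toNat + s.2.1.toNat + s.2.2.toNat
/-- apex attached -/
def att (s : St) : Bool := s.2.1 || s.2.2
/-- base ends not connected inside the triangle -/
def spl (s : St) : Bool := !(s.1 || (s.2.1 && s.2.2))

abbrev T5 := St × St × St × St × St

def chk (m : ℕ) (b : Bool) (t : T5) : Bool :=
  att t.1 && att t.2.1 && att t.2.2.1 && att t.2.2.2.1 && att t.2.2.2.2 &&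
  (Nat.ble ((spl t.1).toNat + (spl t.2.1).toNat + (spl t.2.2.1).toNat + (spl t.2.2.2.1).toNat +
    (spl t.2.2.2.2).toNat + (!b).toNat) 1) &&
  (Nat.beq (ec t.1 + ec t.2.1 + ec t.2.2.1 + ec t.2.2.2.1 + ec t.2.2.2.2 + b.toNat) m)

set_option maxRecDepth 100000 in
theorem c10f : ((Finset.univ : Finset T5).filter (fun t => chk 10 false t = true)).card = 243 := by
  decide +kernel

set_option maxRecDepth 100000 in
theorem c10t : ((Finset.univ : Finset T5).filter (fun t => chk 10 true t = true)).card = 810 := by
  decide +kernel

set_option maxRecDepth 100000 in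
theorem c11f : ((Finset.univ : Finset T5).filter (fun t => chk 11 false t = true)).card = 405 := by
  decide +kernel

set_option maxRecDepth 100000 in
theorem c11t : ((Finset.univ : Finset T5).filter (fun t => chk 11 true t = true)).card = 1323 := by
  decide +kernel

end Q299.Marg
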