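import Mathlib

/-!
# Edge marginals of uniform connected spanning subgraphs of fixed excess: definitions
-/

namespace Q299.Marg

/-- `C^{(k)}(G)`: the edge sets `H` of the connected spanning subgraphs of `G` of excess `k`,
that is `H ⊆ E(G)`, the graph `(V, H)` is connected and `|H| = |V| + k`. -/
def connSub {V : Type*} [Fintype V] (G : SimpleGraph V) (k : ℤ) : Set (Finset (Sym2 V)) :=
  {H | (H : Set (Sym2 V)) ⊆ G.edgeSet ∧ (SimpleGraph.fromEdgeSet (H : Set (Sym2 V))).Connected ∧
    (H.card : ℤ) = Fintype.card V + k}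

/-- `p_e(k)`: the probability that `e` is open under the uniform measure on `C^{(k)}(G)`. -/
noncomputable def marginal {V : Type*} [Fintype V] (G : SimpleGraph V) (e : Sym2 V) (k : ℤ) : ℚ :=
  ({H ∈ connSub G k | e ∈ H}.ncard : ℚ) / ((connSub G k).ncard : ℚ)

/-- The statement of Q1: for every finite connected graph `G` and every edge `e` of `G`,
`p_e(k) ≤ p_e(k+1)` whenever `-1 ≤ k < |E| - |V|`. -/
def MarginalsNondecreasing : Prop :=
  ∀ (n : ℕ) (G : SimpleGraph (Fin n)), G.Connected → ∀ e ∈ G.edgeSet, ∀ k : ℤ,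
    -1 ≤ k → k < (G.edgeSet.ncard : ℤ) - n → marginal G e k ≤ marginal G e (k + 1)

end Q299.Marg
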