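import Pool.Agent.Q299.Marg.Count

namespace Q299.Marg

open SimpleGraph

/-- vertices: the six vertices of the cycle and the five apexes. -/
abbrev W := Fin 6 ⊕ Fin 5

abbrev I := (Fin 5 × Fin 3) ⊕ Unit

/-- the sixteen edges -/
def E : I → Sym2 W
  | Sum.inl (i, 0) => s(Sum.inl i.castSucc, Sum.inl i.succ)
  | Sum.inl (i, 1) => s(Sum.inl i.castSucc, Sum.inr i)
  | Sum.inl (i, 2) => s(Sum.inr i, Sum.inl i.succ)
  | Sum.inr _ => s(Sum.inl 5, Sum.inl 0)

lemma E_inj : Function.Injective E := by
  decide +kernel

lemma E_not_diag (i : I) : ¬ (E i).IsDiag := by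
  revert i
  decide +kernel

/-- the graph -/
def G0 : SimpleGraph W := fromEdgeSet (Set.range E)

lemma G0_edgeSet : G0.edgeSet = Set.range E := by
  unfold G0
  rw [edgeSet_fromEdgeSet]
  ext x
  constructor
  · exact fun h => h.1
  · rintro ⟨i, rfl⟩
    exact ⟨⟨i, rfl⟩, E_not_diag i⟩

/-- bits of a configuration -/
def bit (t : T5 × Bool) : I → Bool
  | Sum.inl (i, 0) => (![t.1.1, t.1.2.1, t.1.2.2.1, t.1.2.2.2.1, t.1.2.2.2.2] i).1
  | Sum.inl (i, 1) => (![t.1.1, t.1.2.1, t.1.2.2.1, t.1.2.2.2.1, t.1.2.2.2.2] i).2.1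
  | Sum.inl (i, 2) => (![t.1.1, t.1.2.1, t.1.2.2.1, t.1.2.2.2.1, t.1.2.2.2.2] i).2.2
  | Sum.inr _ => t.2

def st (t : T5 × Bool) (i : Fin 5) : St :=
  ![t.1.1, t.1.2.1, t.1.2.2.1, t.1.2.2.2.1, t.1.2.2.2.2] i

/-- edge set of a configuration -/
def ofT (t : T5 × Bool) : Finset (Sym2 W) :=
  (Finset.univ.filter (fun i : I => bit t i = true)).image E

lemma E_mem_ofT (t : T5 × Bool) (i : I) : E i ∈ ofT t ↔ bit t i = true := by
  unfold ofT
  simp only [Finset.mem_image, Finset.mem_filter, Finset.mem_univ, true_and]
  constructor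
  · rintro ⟨j, hj, hji⟩
    rw [← E_inj hji]; exact hj
  · intro h
    exact ⟨i, h, rfl⟩

lemma card_ofT (t : T5 × Bool) : (ofT t).card =
    ec t.1.1 + ec t.1.2.1 + ec t.1.2.2.1 + ec t.1.2.2.2.1 + ec t.1.2.2.2.2 + t.2.toNat := by
  unfold ofT
  rw [Finset.card_image_of_injective _ E_inj, Finset.card_filter]
  have h : ∀ b : Bool, (if b = true then 1 else 0) = b.toNat := by decide
  simp only [h]
  rw [Fintype.sum_sum_type, Fintype.sum_prod_type]
  simp only [Fin.sum_univ_five, Fin.sum_univ_three]
  simp [bit, ec]

def gr (t : T5 × Bool) : SimpleGraph W := fromEdgeSet (ofT t : Set (Sym2 W))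

lemma adj_of_bit (t : T5 × Bool) {x y : W} (i : I) (hi : E i = s(x, y)) (hb : bit t i = true) :
    (gr t).Adj x y := by
  unfold gr
  rw [fromEdgeSet_adj]
  refine ⟨?_, ?_⟩
  · rw [← hi]; exact (E_mem_ofT t i).2 hb
  · rintro rfl
    apply E_not_diag i
    rw [hi]; simp

/-- a labelling compatible with all the open edges is constant on adjacent vertices -/
lemma lab_of_adj (t : T5 × Bool) (f : W → Bool)
    (h0 : ∀ i : Fin 5, (st t i).1 = true → f (Sum.inl i.castSucc) = f (Sum.inl i.succ))
    (h1 : ∀ i : Fin 5, (st t i).2.1 = true → f (Sum.inl i.castSucc) = f (Sum.inr i))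
    (h2 : ∀ i : Fin 5, (st t i).2.2 = true → f (Sum.inr i) = f (Sum.inl i.succ))
    (h3 : t.2 = true → f (Sum.inl 5) = f (Sum.inl 0)) {x y : W} (hxy : (gr t).Adj x y) :
    f x = f y := by
  unfold gr at hxy
  rw [fromEdgeSet_adj] at hxy
  obtain ⟨hm, _⟩ := hxy
  unfold ofT at hm
  simp only [Finset.coe_image, Set.mem_image, Finset.coe_filter, Finset.mem_univ, true_and,
    Set.mem_ofPred_eq] at hm
  obtain ⟨i, hi, he⟩ := hm
  have key : ∀ a b : W, f a = f b → s(a, b) = s(x, y) → f x = f y := by
    intro a b hab hs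
    rcases Sym2.eq_iff.1 hs with ⟨rfl, rfl⟩ | ⟨rfl, rfl⟩
    · exact hab
    · exact hab.symm
  rcases i with ⟨i, j⟩ | u
  · fin_cases j
    · exact key _ _ (h0 i hi) he
    · exact key _ _ (h1 i hi) he
    · exact key _ _ (h2 i hi) he
  · exact key _ _ (h3 hi) he

lemma const_of_connected {t : T5 × Bool} (hc : (gr t).Connected) (f : W → Bool)
    (hf : ∀ x y, (gr t).Adj x y → f x = f y) (x y : W) : f x = f y := by
  obtain ⟨p⟩ := hc.preconnected x y
  induction p with
  | nil => rfl
  | cons h _ ih => exact (hf _ _ h).trans ih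

lemma att_of_connected {t : T5 × Bool} (hc : (gr t).Connected) (i : Fin 5) :
    att (st t i) = true := by
  by_contra h
  have h1 : (st t i).2.1 = false ∧ (st t i).2.2 = false := by
    simpa [att] using h
  have := const_of_connected hc (fun x => decide (x = Sum.inr i)) (fun x y hxy =>
    lab_of_adj t (fun x => decide (x = Sum.inr i)) (fun j _ => by simp) (by
      intro j hj
      have h2 : j ≠ i := by rintro rfl; rw [h1.1] at hj; cases hj
      simp [h2]) (by
      intro j hj
      have h2 : j ≠ i := by rintro rfl; rw [h1.2] at hj; cases hj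
      simp [h2]) (fun _ => by simp) hxy) (Sum.inr i) (Sum.inl 0)
  simp at this

lemma two_cuts {t : T5 × Bool} (hc : (gr t).Connected) (j : Fin 5) (l : ℕ) (hjl : (j : ℕ) < l)
    (hl : l ≤ 5) (hj : spl (st t j) = true) (hl5 : l = 5 → t.2 = false)
    (hlt : ∀ i : Fin 5, (i : ℕ) = l → spl (st t i) = true) : False := by
  have hsp : ∀ s : St, spl s = true → s.1 = false ∧ (s.2.1 = false ∨ s.2.2 = false) := by
    decide
  set f : W → Bool := fun x => match x with
    | Sum.inl x => decide ((j : ℕ) < (x : ℕ) ∧ (x : ℕ) ≤ l)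
    | Sum.inr i => if i = j then (st t j).2.2 else if (i : ℕ) = l then (st t i).2.1
        else decide ((j : ℕ) < (i : ℕ) ∧ (i : ℕ) < l) with hf
  have hlab : ∀ x y, (gr t).Adj x y → f x = f y := by
    intro x y hxy
    refine lab_of_adj t f ?_ ?_ ?_ ?_ hxy
    · intro i hi
      have hij : i ≠ j := by
        rintro rfl
        rw [(hsp _ hj).1] at hi; cases hi
      have hil : (i : ℕ) ≠ l := by
        intro h
        rw [(hsp _ (hlt i h)).1] at hi; cases hi
      have hij' : (i : ℕ) ≠ j := fun h => hij (Fin.ext h)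
      simp only [hf, Fin.val_castSucc, Fin.val_succ, decide_eq_decide]
      omega
    · intro i hi
      simp only [hf, Fin.val_castSucc]
      by_cases hij : i = j
      · subst hij
        rw [if_pos rfl]
        rcases (hsp _ hj).2 with h | h
        · rw [h] at hi; cases hi
        · rw [h]; simp
      · have hij' : (i : ℕ) ≠ j := fun h => hij (Fin.ext h)
        rw [if_neg hij]
        by_cases hil : (i : ℕ) = l
        · rw [if_pos hil, hi]
          simp; omega
        · rw [if_neg hil]
          simp only [decide_eq_decide]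
          omega
    · intro i hi
      simp only [hf, Fin.val_succ]
      by_cases hij : i = j
      · subst hij
        rw [if_pos rfl, hi]
        simp; omega
      · have hij' : (i : ℕ) ≠ j := fun h => hij (Fin.ext h)
        rw [if_neg hij]
        by_cases hil : (i : ℕ) = l
        · rw [if_pos hil]
          rcases (hsp _ (hlt i hil)).2 with h | h
          · rw [h]; simp; omega
          · rw [h] at hi; cases hi
        · rw [if_neg hil]
          simp only [decide_eq_decide]
          omega
    · intro h
      have : l ≠ 5 := by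
        intro h5
        rw [hl5 h5] at h; cases h
      simp only [hf]
      have h5 : ((5 : Fin 6) : ℕ) = 5 := rfl
      have h0 : ((0 : Fin 6) : ℕ) = 0 := rfl
      rw [h5, h0]
      simp only [decide_eq_decide]
      omega
  have := const_of_connected hc f hlab (Sum.inl 0) (Sum.inl j.succ)
  simp only [hf, Fin.val_succ, decide_eq_decide] at this
  have h0 : ((0 : Fin 6) : ℕ) = 0 := rfl
  rw [h0] at this
  omega

lemma reach_step {t : T5 × Bool} (i : Fin 5) (h : spl (st t i) = false) :
    (gr t).Reachable (Sum.inl i.castSucc) (Sum.inl i.succ) := by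
  have hsp : ∀ s : St, spl s = false → s.1 = true ∨ (s.2.1 = true ∧ s.2.2 = true) := by
    decide
  rcases hsp _ h with h1 | ⟨h1, h2⟩
  · exact (adj_of_bit t (Sum.inl (i, 0)) rfl h1).reachable
  · exact (adj_of_bit t (Sum.inl (i, 1)) rfl h1).reachable.trans
      (adj_of_bit t (Sum.inl (i, 2)) rfl h2).reachable

lemma reach_last {t : T5 × Bool} (h : t.2 = true) :
    (gr t).Reachable (Sum.inl 5) (Sum.inl 0) :=
  (adj_of_bit t (Sum.inr ()) rfl h).reachable

lemma reach_apex {t : T5 × Bool} (i : Fin 5) (h : att (st t i) = true) :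
    (gr t).Reachable (Sum.inr i) (Sum.inl i.castSucc) ∨
    (gr t).Reachable (Sum.inr i) (Sum.inl i.succ) := by
  have ha : ∀ s : St, att s = true → s.2.1 = true ∨ s.2.2 = true := by decide
  rcases ha _ h with h | h
  · left
    exact (adj_of_bit t (Sum.inl (i, 1)) rfl h).reachable.symm
  · right
    exact (adj_of_bit t (Sum.inl (i, 2)) rfl h).reachable

lemma connected_iff (t : T5 × Bool) : (gr t).Connected ↔
    (∀ i, att (st t i) = true) ∧
    ((spl (st t 0)).toNat + (spl (st t 1)).toNat + (spl (st t 2)).toNat + (spl (st t 3)).toNat +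
      (spl (st t 4)).toNat + (!t.2).toNat ≤ 1) := by
  constructor
  · intro hc
    refine ⟨att_of_connected hc, ?_⟩
    have hpair : ∀ j l : Fin 5, j < l → ¬ (spl (st t j) = true ∧ spl (st t l) = true) := by
      rintro j l hjl ⟨h1, h2⟩
      exact two_cuts hc j l hjl (by omega) h1 (by omega) (by
        intro i hi
        have : i = l := Fin.ext hi
        rw [this]; exact h2)
    have hlast : ∀ j : Fin 5, ¬ (spl (st t j) = true ∧ t.2 = false) := by
      rintro j ⟨h1, h2⟩
      exact two_cuts hc j 5 j.2 le_rfl h1 (fun _ => h2) (by intro i hi; omega)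
    have p01 := hpair 0 1 (by decide)
    have p02 := hpair 0 2 (by decide)
    have p03 := hpair 0 3 (by decide)
    have p04 := hpair 0 4 (by decide)
    have p12 := hpair 1 2 (by decide)
    have p13 := hpair 1 3 (by decide)
    have p14 := hpair 1 4 (by decide)
    have p23 := hpair 2 3 (by decide)
    have p24 := hpair 2 4 (by decide)
    have p34 := hpair 3 4 (by decide)
    have l0 := hlast 0
    have l1 := hlast 1
    have l2 := hlast 2
    have l3 := hlast 3
    have l4 := hlast 4
    generalize spl (st t 0) = s0 at *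
    generalize spl (st t 1) = s1 at *
    generalize spl (st t 2) = s2 at *
    generalize spl (st t 3) = s3 at *
    generalize spl (st t 4) = s4 at *
    generalize t.2 = b at *
    clear hpair hlast hc
    cases s0 <;> cases s1 <;> cases s2 <;> cases s3 <;> cases s4 <;> cases b <;> simp_all
  · rintro ⟨ha, hs⟩
    have r0 := fun h => reach_step (t := t) 0 h
    have r1 := fun h => reach_step (t := t) 1 h
    have r2 := fun h => reach_step (t := t) 2 h
    have r3 := fun h => reach_step (t := t) 3 h
    have r4 := fun h => reach_step (t := t) 4 h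
    have r5 := fun h => reach_last (t := t) h
    have hR : (gr t).Reachable (Sum.inl 0) (Sum.inl 1) ∧ (gr t).Reachable (Sum.inl 0) (Sum.inl 2) ∧
        (gr t).Reachable (Sum.inl 0) (Sum.inl 3) ∧ (gr t).Reachable (Sum.inl 0) (Sum.inl 4) ∧
        (gr t).Reachable (Sum.inl 0) (Sum.inl 5) := by
      change _ → (gr t).Reachable (Sum.inl 0) (Sum.inl 1) at r0
      change _ → (gr t).Reachable (Sum.inl 1) (Sum.inl 2) at r1
      change _ → (gr t).Reachable (Sum.inl 2) (Sum.inl 3) at r2
      change _ → (gr t).Reachable (Sum.inl 3) (Sum.inl 4) at r3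
      change _ → (gr t).Reachable (Sum.inl 4) (Sum.inl 5) at r4
      generalize spl (st t 0) = s0 at *
      generalize spl (st t 1) = s1 at *
      generalize spl (st t 2) = s2 at *
      generalize spl (st t 3) = s3 at *
      generalize spl (st t 4) = s4 at *
      rcases hb : t.2 with _ | _
      · -- no edge e: no splits
        rw [hb] at hs
        cases s0 <;> cases s1 <;> cases s2 <;> cases s3 <;> cases s4 <;> simp at hs
        have a1 := r0 rfl
        have a2 := a1.trans (r1 rfl)
        have a3 := a2.trans (r2 rfl)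
        have a4 := a3.trans (r3 rfl)
        exact ⟨a1, a2, a3, a4, a4.trans (r4 rfl)⟩
      · have b5 := (r5 hb).symm
        rw [hb] at hs
        cases s0
        · have a1 := r0 rfl
          cases s1
          · have a2 := a1.trans (r1 rfl)
            cases s2
            · have a3 := a2.trans (r2 rfl)
              cases s3
              · exact ⟨a1, a2, a3, a3.trans (r3 rfl), b5⟩
              · cases s4 <;> simp at hs
                exact ⟨a1, a2, a3, b5.trans (r4 rfl).symm, b5⟩
            · cases s3 <;> cases s4 <;> simp at hs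
              have c4 := b5.trans (r4 rfl).symm
              exact ⟨a1, a2, c4.trans (r3 rfl).symm, c4, b5⟩
          · cases s2 <;> cases s3 <;> cases s4 <;> simp at hs
            have c4 := b5.trans (r4 rfl).symm
            have c3 := c4.trans (r3 rfl).symm
            exact ⟨a1, c3.trans (r2 rfl).symm, c3, c4, b5⟩
        · cases s1 <;> cases s2 <;> cases s3 <;> cases s4 <;> simp at hs
          have c4 := b5.trans (r4 rfl).symm
          have c3 := c4.trans (r3 rfl).symm
          have c2 := c3.trans (r2 rfl).symm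
          exact ⟨c2.trans (r1 rfl).symm, c2, c3, c4, b5⟩
    have hall : ∀ x : Fin 6, (gr t).Reachable (Sum.inl 0) (Sum.inl x) := by
      intro x
      obtain ⟨h1, h2, h3, h4, h5⟩ := hR
      fin_cases x
      · exact Reachable.refl _
      · exact h1
      · exact h2
      · exact h3
      · exact h4
      · exact h5
    have hall2 : ∀ x : W, (gr t).Reachable (Sum.inl 0) x := by
      rintro (x | i)
      · exact hall x
      · rcases reach_apex i (ha i) with h | h
        · exact (hall _).trans h.symm
        · exact (hall _).trans h.symm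
    exact (connected_iff_exists_forall_reachable _).2 ⟨Sum.inl 0, hall2⟩

end Q299.Marg
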