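import Pool.Agent.Q299.Marg.Graph

namespace Q299.Marg

open SimpleGraph

lemma st_zero (t : T5 × Bool) : st t 0 = t.1.1 := rfl
lemma st_one (t : T5 × Bool) : st t 1 = t.1.2.1 := rfl
lemma st_two (t : T5 × Bool) : st t 2 = t.1.2.2.1 := rfl
lemma st_three (t : T5 × Bool) : st t 3 = t.1.2.2.2.1 := rfl
lemma st_four (t : T5 × Bool) : st t 4 = t.1.2.2.2.2 := rfl

lemma chk_iff (m : ℕ) (t : T5 × Bool) :
    chk m t.2 t.1 = true ↔ (gr t).Connected ∧ (ofT t).card = m := by
  rw [connected_iff, card_ofT, Fin.forall_fin_succ, Fin.forall_fin_succ, Fin.forall_fin_succ,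
    Fin.forall_fin_succ, Fin.forall_fin_succ]
  unfold chk
  simp only [Bool.and_eq_true, Nat.ble_eq, Nat.beq_eq]
  have h1 : st t (Fin.succ 0) = t.1.2.1 := rfl
  have h2 : st t (Fin.succ (Fin.succ 0)) = t.1.2.2.1 := rfl
  have h3 : st t (Fin.succ (Fin.succ (Fin.succ 0))) = t.1.2.2.2.1 := rfl
  have h4 : st t (Fin.succ (Fin.succ (Fin.succ (Fin.succ 0)))) = t.1.2.2.2.2 := rfl
  rw [h1, h2, h3, h4, st_zero, st_one, st_two, st_three, st_four]
  simp only [IsEmpty.forall_iff, and_true, and_assoc]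

lemma ofT_injective : Function.Injective ofT := by
  intro t t' h
  have hb : ∀ i, bit t i = bit t' i := by
    intro i
    have h1 := E_mem_ofT t i
    have h2 := E_mem_ofT t' i
    rw [h] at h1
    rw [Bool.eq_iff_iff]
    exact h1.symm.trans h2
  obtain ⟨⟨⟨a1, a2, a3⟩, ⟨b1, b2, b3⟩, ⟨c1, c2, c3⟩, ⟨d1, d2, d3⟩, ⟨e1, e2, e3⟩⟩, f⟩ := t
  obtain ⟨⟨⟨a1', a2', a3'⟩, ⟨b1', b2', b3'⟩, ⟨c1', c2', c3'⟩, ⟨d1', d2', d3'⟩, ⟨e1', e2', e3'⟩⟩, f'⟩ := t'
  have h00 := hb (Sum.inl (0, 0))
  have h01 := hb (Sum.inl (0, 1))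
  have h02 := hb (Sum.inl (0, 2))
  have h10 := hb (Sum.inl (1, 0))
  have h11 := hb (Sum.inl (1, 1))
  have h12 := hb (Sum.inl (1, 2))
  have h20 := hb (Sum.inl (2, 0))
  have h21 := hb (Sum.inl (2, 1))
  have h22 := hb (Sum.inl (2, 2))
  have h30 := hb (Sum.inl (3, 0))
  have h31 := hb (Sum.inl (3, 1))
  have h32 := hb (Sum.inl (3, 2))
  have h40 := hb (Sum.inl (4, 0))
  have h41 := hb (Sum.inl (4, 1))
  have h42 := hb (Sum.inl (4, 2))
  have h5 := hb (Sum.inr ())
  simp [bit] at h00 h01 h02 h10 h11 h12 h20 h21 h22 h30 h31 h32 h40 h41 h42 h5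
  simp [*]

def mkT (f : I → Bool) : T5 × Bool :=
  (((f (Sum.inl (0, 0)), f (Sum.inl (0, 1)), f (Sum.inl (0, 2))),
    (f (Sum.inl (1, 0)), f (Sum.inl (1, 1)), f (Sum.inl (1, 2))),
    (f (Sum.inl (2, 0)), f (Sum.inl (2, 1)), f (Sum.inl (2, 2))),
    (f (Sum.inl (3, 0)), f (Sum.inl (3, 1)), f (Sum.inl (3, 2))),
    (f (Sum.inl (4, 0)), f (Sum.inl (4, 1)), f (Sum.inl (4, 2)))), f (Sum.inr ()))

lemma bit_mkT (f : I → Bool) (i : I) : bit (mkT f) i = f i := by
  rcases i with ⟨i, j⟩ | u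
  · fin_cases i <;> fin_cases j <;> rfl
  · rfl

lemma exists_ofT (H : Finset (Sym2 W)) (hH : (H : Set (Sym2 W)) ⊆ G0.edgeSet) :
    ∃ t, ofT t = H := by
  classical
  refine ⟨mkT (fun i => decide (E i ∈ H)), ?_⟩
  ext x
  constructor
  · intro hx
    unfold ofT at hx
    simp only [Finset.mem_image, Finset.mem_filter, Finset.mem_univ, true_and] at hx
    obtain ⟨i, hi, rfl⟩ := hx
    rw [bit_mkT] at hi
    simpa using hi
  · intro hx
    have := hH hx
    rw [G0_edgeSet] at this
    obtain ⟨i, rfl⟩ := this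
    rw [E_mem_ofT, bit_mkT]
    simpa using hx

lemma ofT_subset (t : T5 × Bool) : (ofT t : Set (Sym2 W)) ⊆ G0.edgeSet := by
  rw [G0_edgeSet]
  intro x hx
  unfold ofT at hx
  simp only [Finset.coe_image, Set.mem_image] at hx
  obtain ⟨i, _, rfl⟩ := hx
  exact ⟨i, rfl⟩

lemma connSub_eq (k : ℤ) (m : ℕ) (hm : (m : ℤ) = 11 + k) :
    connSub G0 k = ofT '' {t | chk m t.2 t.1 = true} := by
  have hcard : Fintype.card W = 11 := by simp [W]
  ext H
  constructor
  · rintro ⟨h1, h2, h3⟩
    obtain ⟨t, rfl⟩ := exists_ofT H h1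
    refine ⟨t, ?_, rfl⟩
    rw [Set.mem_ofPred_eq, chk_iff]
    refine ⟨h2, ?_⟩
    rw [hcard] at h3
    push_cast at h3
    omega
  · rintro ⟨t, ht, rfl⟩
    rw [Set.mem_ofPred_eq, chk_iff] at ht
    refine ⟨ofT_subset t, ht.1, ?_⟩
    rw [ht.2, hcard]
    push_cast
    omega

lemma ncard_with (k : ℤ) (m : ℕ) (hm : (m : ℤ) = 11 + k) :
    {H ∈ connSub G0 k | E (Sum.inr ()) ∈ H}.ncard =
      ((Finset.univ : Finset T5).filter (fun t => chk m true t = true)).card := by
  have h : {H ∈ connSub G0 k | E (Sum.inr ()) ∈ H} =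
      (fun t : T5 => ofT (t, true)) '' {t | chk m true t = true} := by
    ext H
    rw [connSub_eq k m hm]
    constructor
    · rintro ⟨⟨⟨t, b⟩, ht, rfl⟩, he⟩
      rw [E_mem_ofT] at he
      have hb : b = true := he
      subst hb
      exact ⟨t, ht, rfl⟩
    · rintro ⟨t, ht, rfl⟩
      exact ⟨⟨(t, true), ht, rfl⟩, (E_mem_ofT _ _).2 rfl⟩
  rw [h, Set.ncard_image_of_injective _ (fun a b hab => by
    have := ofT_injective hab
    exact (Prod.mk.inj this).1)]
  rw [← Set.ncard_coe_finset]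
  congr 1
  ext t
  simp

lemma ncard_all (k : ℤ) (m : ℕ) (hm : (m : ℤ) = 11 + k) :
    (connSub G0 k).ncard =
      ((Finset.univ : Finset T5).filter (fun t => chk m true t = true)).card +
      ((Finset.univ : Finset T5).filter (fun t => chk m false t = true)).card := by
  rw [connSub_eq k m hm, Set.ncard_image_of_injective _ ofT_injective]
  have h : {t : T5 × Bool | chk m t.2 t.1 = true} =
      ((fun t : T5 => (t, true)) '' {t | chk m true t = true}) ∪
      ((fun t : T5 => (t, false)) '' {t | chk m false t = true}) := by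
    ext ⟨t, b⟩
    cases b <;> simp
  rw [h, Set.ncard_union_eq, Set.ncard_image_of_injective _ (fun a b hab => (Prod.mk.inj hab).1),
    Set.ncard_image_of_injective _ (fun a b hab => (Prod.mk.inj hab).1),
    ← Set.ncard_coe_finset, ← Set.ncard_coe_finset]
  · congr 2
    · ext t; simp
    · ext t; simp
  · rw [Set.disjoint_left]
    rintro x ⟨a, _, rfl⟩ ⟨b, _, hb⟩
    have := (Prod.mk.inj hb).2
    cases this

lemma marginal_neg_one : marginal G0 (E (Sum.inr ())) (-1) = 10 / 13 := by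
  unfold marginal
  rw [ncard_with (-1) 10 (by norm_num), ncard_all (-1) 10 (by norm_num), c10t, c10f]
  norm_num

lemma marginal_zero : marginal G0 (E (Sum.inr ())) 0 = 49 / 64 := by
  unfold marginal
  rw [ncard_with 0 11 (by norm_num), ncard_all 0 11 (by norm_num), c11t, c11f]
  norm_num

lemma G0_connected : G0.Connected := by
  have h : gr (mkT (fun _ => true)) = G0 := by
    unfold gr G0
    congr 1
    ext x
    constructor
    · intro hx
      have := ofT_subset _ hx
      rwa [G0_edgeSet] at this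
    · rintro ⟨i, rfl⟩
      have := (E_mem_ofT (mkT (fun _ => true)) i).2 (bit_mkT _ _)
      exact this
  rw [← h, connected_iff]
  refine ⟨?_, ?_⟩
  · intro i; fin_cases i <;> decide
  · decide

lemma G0_ncard : G0.edgeSet.ncard = 16 := by
  rw [G0_edgeSet, ← Set.image_univ, Set.ncard_image_of_injective _ E_inj, Set.ncard_univ,
    Nat.card_eq_fintype_card]
  rfl

section Transfer

variable {V V' : Type*} [Fintype V] [Fintype V']

/-- the bijection of pairs induced by a bijection -/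
def s2c {V V' : Type*} (e : V ≃ V') : Sym2 V ≃ Sym2 V' where
  toFun := Sym2.map e
  invFun := Sym2.map e.symm
  left_inv := by intro z; simp [Sym2.map_map]
  right_inv := by intro z; simp [Sym2.map_map]

@[simp] lemma s2c_mk {V V' : Type*} (e : V ≃ V') (x y : V) : s2c e s(x, y) = s(e x, e y) := rfl

lemma ncard_transfer (e : V ≃ V') (G : SimpleGraph V) (k : ℤ) (P : Finset (Sym2 V') → Prop) :
    {H ∈ connSub (G.map e.toEmbedding) k | P H}.ncard =
    {H ∈ connSub G k | P (H.map (s2c e).toEmbedding)}.ncard := by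
  have hinj : Function.Injective
      (fun H : Finset (Sym2 V) => H.map (s2c e).toEmbedding) :=
    Finset.map_injective _
  rw [← Set.ncard_image_of_injective _ hinj]
  congr 1
  have key : ∀ H : Finset (Sym2 V),
      (H.map (s2c e).toEmbedding ∈ connSub (G.map e.toEmbedding) k ↔
        H ∈ connSub G k) := by
    intro H
    have hadj : ∀ x y : V, (fromEdgeSet ((H.map (s2c e).toEmbedding : Finset (Sym2 V')) :
        Set (Sym2 V'))).Adj (e x) (e y) ↔ (fromEdgeSet (H : Set (Sym2 V))).Adj x y := by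
      intro x y
      simp only [fromEdgeSet_adj, Finset.coe_map, Set.mem_image, Finset.mem_coe,
        Equiv.coe_toEmbedding]
      constructor
      · rintro ⟨⟨z, hz, hzz⟩, hne⟩
        have : z = s(x, y) := by
          apply (s2c e).injective
          rw [hzz]
          simp
        rw [this] at hz
        exact ⟨hz, fun h => hne (by rw [h])⟩
      · rintro ⟨h, hne⟩
        exact ⟨⟨s(x, y), h, by simp⟩, fun h => hne (e.injective h)⟩
    let iso : (fromEdgeSet (H : Set (Sym2 V))) ≃g (fromEdgeSet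
        ((H.map (s2c e).toEmbedding : Finset (Sym2 V')) : Set (Sym2 V'))) :=
      ⟨e, fun {a b} => hadj a b⟩
    unfold connSub
    simp only [Set.mem_ofPred_eq, Finset.card_map]
    rw [Fintype.card_congr e, iso.connected_iff]
    have : ((H.map (s2c e).toEmbedding : Finset (Sym2 V')) : Set (Sym2 V')) ⊆
        (G.map e.toEmbedding).edgeSet ↔ (H : Set (Sym2 V)) ⊆ G.edgeSet := by
      rw [edgeSet_map, Finset.coe_map]
      have h2 : (s2c e).toEmbedding = e.toEmbedding.sym2Map := by
        ext z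
        induction z using Sym2.ind with
        | _ x y => simp
      rw [h2]
      exact Set.image_subset_image_iff (Function.Embedding.injective _)
    rw [this]
  ext H'
  constructor
  · rintro ⟨h1, h2⟩
    have : H' = (H'.map (s2c e).symm.toEmbedding).map
        (s2c e).toEmbedding := by
      ext z
      simp
    refine ⟨H'.map (s2c e).symm.toEmbedding, ⟨?_, ?_⟩, this.symm⟩
    · rw [← key, ← this]; exact h1
    · rw [← this]; exact h2
  · rintro ⟨H, ⟨h1, h2⟩, rfl⟩
    exact ⟨(key H).2 h1, h2⟩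

lemma marginal_transfer (e : V ≃ V') (G : SimpleGraph V) (k : ℤ) (x : Sym2 V) :
    marginal (G.map e.toEmbedding) (s2c e x) k = marginal G x k := by
  unfold marginal
  have h1 := ncard_transfer e G k (fun H => s2c e x ∈ H)
  have h2 := ncard_transfer e G k (fun _ => True)
  simp only [and_true, Set.ofPred_mem_eq] at h2
  rw [h1, h2]
  congr 3
  ext H
  have : s2c e x ∈ H.map (s2c e).toEmbedding ↔ x ∈ H :=
    Finset.mem_map' (s2c e).toEmbedding
  exact and_congr_right (fun _ => this)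

end Transfer

theorem main : ∃ (G : SimpleGraph (Fin 11)) (e : Sym2 (Fin 11)), G.Connected ∧ e ∈ G.edgeSet ∧
    G.edgeSet.ncard = 16 ∧ marginal G e (-1) = 10 / 13 ∧ marginal G e 0 = 49 / 64 := by
  have hc : Fintype.card W = 11 := by simp [W]
  let φ : W ≃ Fin 11 := Fintype.equivFinOfCardEq hc
  refine ⟨G0.map φ.toEmbedding, s2c φ (E (Sum.inr ())), ?_, ?_, ?_, ?_, ?_⟩
  · have iso : G0 ≃g G0.map φ.toEmbedding := SimpleGraph.Iso.map φ G0
    exact iso.connected_iff.1 G0_connected
  · have : (E (Sum.inr ())) ∈ G0.edgeSet := by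
      rw [G0_edgeSet]; exact ⟨_, rfl⟩
    rw [edgeSet_map]
    refine ⟨_, this, ?_⟩
    rfl
  · rw [edgeSet_map, Set.ncard_image_of_injective _ (Function.Embedding.injective _), G0_ncard]
  · rw [marginal_transfer, marginal_neg_one]
  · rw [marginal_transfer, marginal_zero]

theorem not_nondecreasing : ¬ MarginalsNondecreasing := by
  intro h
  obtain ⟨G, e, h1, h2, h3, h4, h5⟩ := main
  have := h 11 G h1 e h2 (-1) le_rfl (by rw [h3]; norm_num)
  norm_num at this
  rw [h4, h5] at this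
  norm_num at this

end Q299.Marg
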